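import Pool.Agent.R951.NW.Final

/-!
# MP_9100ee_an: weight symbols of normal weighted composition operators

If `φ(z) = (a z + b)/(c z + d)` is a linear fractional self-map of the unit disc and the weighted
composition operator `W f = ψ · (f ∘ φ)` is bounded and normal on the Hardy space `H²`, then
`ψ(z) = C/(c z + d)` for a constant `C`; in particular `ψ` is linear fractional.

The Hardy space is described by its sequences of Taylor coefficients.
-/

set_option autoImplicit false

open Metric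
open scoped ComplexConjugate InnerProduct InnerProductSpace

namespace Pool.Agent.Results.MP_9100ee_an.WeightSymbol

/-- `f` is the sequence of Taylor coefficients of a function in the Hardy space `H²` of the unit
disc: it is square summable. -/
def InH2 (f : ℕ → ℂ) : Prop := Summable fun n => ‖f n‖ ^ 2

/-- The value at `z` of the function with Taylor coefficients `f`, i.e. `∑ n, f n * z ^ n`. -/
noncomputable def value (f : ℕ → ℂ) (z : ℂ) : ℂ := ∑' n, f n * z ^ n

/-- The squared norm of `H²`. -/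
noncomputable def normSq (f : ℕ → ℂ) : ℝ := ∑' n, ‖f n‖ ^ 2

/-- The inner product of `H²` (conjugate linear in the first variable). -/
noncomputable def ip (f g : ℕ → ℂ) : ℂ := ∑' n, conj (f n) * g n

/-- A bounded linear operator on `H²` (in terms of Taylor coefficients). -/
structure BddOp where
  /-- the operator; only its values on `H²` matter -/
  toFun : (ℕ → ℂ) → ℕ → ℂ
  mem : ∀ f, InH2 f → InH2 (toFun f)
  add : ∀ f g, InH2 f → InH2 g → toFun (f + g) = toFun f + toFun g
  smul : ∀ (c : ℂ) (f : ℕ → ℂ), InH2 f → toFun (c • f) = c • toFun f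
  bdd : ∃ K : ℝ, ∀ f, InH2 f → normSq (toFun f) ≤ K * normSq f

/-- `W` is the (bounded) weighted composition operator on `H²` with weight symbol `ψ` and
composition symbol `φ`: `(W f)(z) = ψ(z) f(φ(z))` for all `f` in `H²` and all `z` in the unit disc. -/
def IsWeightedComposition (ψ φ : ℂ → ℂ) (W : BddOp) : Prop :=
  ∀ f, InH2 f → ∀ z : ℂ, ‖z‖ < 1 → value (W.toFun f) z = ψ z * value f (φ z)

/-- `V` is the Hilbert space adjoint of `W`. -/
def IsAdjoint (V W : BddOp) : Prop :=
  ∀ f g, InH2 f → InH2 g → ip (W.toFun f) g = ip f (V.toFun g)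

/-- `W` is normal: it commutes with its adjoint. -/
def IsNormal (W : BddOp) : Prop :=
  ∃ V : BddOp, IsAdjoint V W ∧ ∀ f, InH2 f → W.toFun (V.toFun f) = V.toFun (W.toFun f)

/-- `ψ` is analytic on the open unit disc. -/
def IsAnalytic (ψ : ℂ → ℂ) : Prop := DifferentiableOn ℂ ψ (ball 0 1)

/-- The linear fractional function `(a z + b)/(c z + d)`. -/
noncomputable def lf (a b c d z : ℂ) : ℂ := (a * z + b) / (c * z + d)

/-- `(a z + b)/(c z + d)`, with `a d - b c ≠ 0`, is defined on the open unit disc and maps it into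
itself. -/
def IsSelfMap (a b c d : ℂ) : Prop :=
  a * d - b * c ≠ 0 ∧ ∀ z : ℂ, ‖z‖ < 1 → c * z + d ≠ 0 ∧ ‖lf a b c d z‖ < 1

section conversion

open Pool.Agent.Helper156.Ess

lemma memlp_iff (f : ℕ → ℂ) : Memℓp f 2 ↔ InH2 f := by
  rw [memℓp_gen_iff (by norm_num)]
  simp [InH2]

lemma inH2 (f : H2) : InH2 f := (memlp_iff f).1 (lp.memℓp f)

lemma normSq_eq (f : H2) : normSq f = ‖f‖ ^ 2 := by
  rw [norm_sq]; rfl

lemma ip_eq (f g : H2) : ip f g = ⟪f, g⟫_ℂ := by
  rw [lp.inner_eq_tsum, ip]
  congr 1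
  funext n
  rw [RCLike.inner_apply]
  ring

/-- the operator on the Hilbert space `H2` -/
lemma exists_clm (W : BddOp) : ∃ T : H2 →L[ℂ] H2, ∀ f : H2, (T f : ℕ → ℂ) = W.toFun f := by
  obtain ⟨K, hK⟩ := W.bdd
  refine ⟨LinearMap.mkContinuous
    { toFun := fun f => (⟨W.toFun f, (memlp_iff _).2 (W.mem f (inH2 f))⟩ : H2)
      map_add' := fun f g => Subtype.ext (W.add f g (inH2 f) (inH2 g))
      map_smul' := fun c f => Subtype.ext (W.smul c f (inH2 f)) } (Real.sqrt (max K 0)) ?_, ?_⟩
  · intro f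
    have h1 := hK f (inH2 f)
    set F : H2 := (⟨W.toFun f, (memlp_iff _).2 (W.mem f (inH2 f))⟩ : H2) with hF
    have h2 : normSq (W.toFun f) = ‖F‖ ^ 2 := normSq_eq F
    rw [h2, normSq_eq] at h1
    change ‖F‖ ≤ _
    rw [← Real.sqrt_sq (norm_nonneg f), ← Real.sqrt_mul (le_max_right _ _)]
    apply Real.le_sqrt_of_sq_le
    refine h1.trans ?_
    gcongr
    exact le_max_left _ _
  · intro f
    rfl

end conversion

/-- Answer to Q1 of MP_9100ee_an: yes. If `φ(z) = (a z + b)/(c z + d)` (with `a d - b c ≠ 0`) maps the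
unit disc into itself, `ψ` is analytic on the disc and the weighted composition operator with these
symbols is bounded and normal on `H²`, then `ψ` is linear fractional; more precisely
`ψ(z) = C/(c z + d)` for some constant `C`. -/
theorem result (a b c d : ℂ) (hφ : IsSelfMap a b c d) (ψ : ℂ → ℂ) (hψ : IsAnalytic ψ)
    (W : BddOp) (hW : IsWeightedComposition ψ (lf a b c d) W) (hN : IsNormal W) :
    ∃ C : ℂ, ∀ z : ℂ, ‖z‖ < 1 → c * z + d ≠ 0 ∧ ψ z = C / (c * z + d) := by
  obtain ⟨V, hV, hVW⟩ := hN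
  obtain ⟨T, hT⟩ := exists_clm W
  obtain ⟨U, hU⟩ := exists_clm V
  have hTU : T = U† := by
    rw [ContinuousLinearMap.eq_adjoint_iff]
    intro x y
    rw [← ip_eq, ← ip_eq, hT, hU]
    exact hV x y (inH2 x) (inH2 y)
  have hUT : T† = U := by rw [hTU, ContinuousLinearMap.adjoint_adjoint]
  have hcomm : T * T† = T† * T := by
    rw [hUT]
    ext1 f
    apply lp.ext
    have e1 : ((T * U) f : ℕ → ℂ) = W.toFun (V.toFun f) := by
      change (T (U f) : ℕ → ℂ) = _
      rw [hT, hU]
    have e2 : ((U * T) f : ℕ → ℂ) = V.toFun (W.toFun f) := by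
      change (U (T f) : ℕ → ℂ) = _
      rw [hU, hT]
    rw [e1, e2]
    exact hVW f (inH2 f)
  have hWC : Pool.Agent.R951.NW.WComp ψ (fun z => (a * z + b) / (c * z + d)) T := by
    intro f z hz
    have h := hW f (inH2 f) z hz
    rw [← hT] at h
    exact h
  obtain ⟨C, hC⟩ := Pool.Agent.R951.NW.weight hφ.1 hφ.2 hψ hWC hcomm
  exact ⟨C, fun z hz => ⟨(hφ.2 z hz).1, (eq_div_iff (hφ.2 z hz).1).2 (hC z hz)⟩⟩

end Pool.Agent.Results.MP_9100ee_an.WeightSymbol
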